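import Mathlib
import Pool.Agent.MP_d0dfcd_ag.AllR

/-! For every `r > 81`, the Waldschmidt constant of `r` generic points satisfies
`e² ≥ r - 6 / (r - 9 √r)`, in every characteristic. -/

namespace Pool.Agent.Results.MP_d0dfcd_ag.AllR

open Pool.Agent.MP_d0dfcd_ag

universe u

theorem result (r : ℕ) (hr : 81 < r) :
    SqBound.{u} r ((r : ℝ) - 6 / ((r : ℝ) - 9 * Real.sqrt r)) :=
  all_r r hr

end Pool.Agent.Results.MP_d0dfcd_ag.AllR
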