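import Mathlib
import Pool.Agent.MP_d0dfcd_ag.Cluster

/-! A lower bound for the Waldschmidt constant of generic points from several clusters. -/

namespace Pool.Agent.Results.MP_d0dfcd_ag.Clusters

open MvPolynomial

theorem result {K : Type*} [Field K] [IsAlgClosed K] (r k : ℕ) (n δ c : Fin k → ℕ)
    (y : Fin k → ℝ) (hδ : ∀ j, 1 ≤ δ j) (hc : ∀ j, 1 ≤ c j) (hcn : ∀ j, c j ≤ n j)
    (hn : ∑ j, n j ≤ r) (hy0 : ∀ j, 0 ≤ y j) (hy : ∀ j, y j * c j ≤ δ j)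
    (hS : ∑ j, (n j : ℝ) * δ j * y j / c j ≤ 1)
    (a b : Fin r → K) (hab : AlgebraicIndependent (⊥ : Subfield K) (Sum.elim a b))
    (m d : ℕ) (F : MvPolynomial (Fin 3) K) (h0 : F ≠ 0) (hF : F.IsHomogeneous d)
    (hV : ∀ i, F ∈ Ideal.span {X 1 - C (a i) * X 0, X 2 - C (b i) * X 0} ^ m) :
    (∑ j, n j * y j) * m ≤ d :=
  Pool.Agent.MP_d0dfcd_ag.cluster_bound n δ c y hδ hc hcn hy0 hy hS (by simpa using hn)
    a b hab m d F h0 hF hV

end Pool.Agent.Results.MP_d0dfcd_ag.Clusters
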