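import Mathlib
import Pool.Agent.MP_d0dfcd_ag.Cubic

/-! For most `r`, `e(S)² ≥ r - O(1 / r³)` in characteristic zero or large characteristic. -/

namespace Pool.Agent.Results.MP_d0dfcd_ag.CubicError

open Pool.Agent.MP_d0dfcd_ag

universe u

theorem result (M N : ℕ) (hM : 1 ≤ M) :
    {r : ℕ | 1 ≤ r ∧ r ≤ N ∧
      ¬ SqBoundLarge.{u} r ((r : ℝ) - 524288 * (M : ℝ) ^ 8 / (r : ℝ) ^ 3)}.ncard * M ≤ 250 * N :=
  cubic_density M N hM

end Pool.Agent.Results.MP_d0dfcd_ag.CubicError
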