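import Mathlib
import Pool.Agent.MP_d0dfcd_ag.Exact

/-! For most `r`, Nagata's inequality holds for all multiplicities up to order `r ^ 3`. -/

namespace Pool.Agent.Results.MP_d0dfcd_ag.ExactRange

open Pool.Agent.MP_d0dfcd_ag

universe u

theorem result (M N : ℕ) (hM : 1 ≤ M) :
    {r : ℕ | 1 ≤ r ∧ r ≤ N ∧ ¬ NagataUpTo.{u} r (131072 * M ^ 8)}.ncard * M ≤ 250 * N :=
  exact_density M N hM

end Pool.Agent.Results.MP_d0dfcd_ag.ExactRange
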