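import Mathlib
import Pool.Agent.MP_d0dfcd_ag.h44.Main

/-! The Nagata-Biran equality for every number `r ≥ 1` of generic points on a family of
polarized blow-ups of the plane. -/

namespace Pool.Agent.Results.MP_d0dfcd_ag.NagataBiran

open Pool.Agent.MP_d0dfcd_ag

theorem result {K : Type*} [Field K] [IsAlgClosed K] (h2 : (2 : K) ≠ 0)
    (n : Fin 11 → ℕ) (c : Fin 11 → ℝ) (δ : ℝ) (hc : ∀ j, 0 ≤ c j)
    (s1 : n 0 * c 0 + n 1 * c 1 + n 2 * c 2 = δ)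
    (s2 : n 3 * c 3 + n 4 * c 4 + n 5 * c 5 + n 6 * c 6 = δ)
    (p1 : n 7 * c 7 = n 3 * c 3) (p2 : n 8 * c 8 = n 4 * c 4) (p3 : n 9 * c 9 = n 5 * c 5)
    (p4 : n 10 * c 10 = n 6 * c 6) (hL : ∑ j, (n j * c j) ^ 2 ≤ δ ^ 2) (r : ℕ) (hr : 0 < r)
    (a b : (Σ j : Fin 11, Fin (n j ^ 2)) ⊕ Fin r → K)
    (hab : AlgebraicIndependent (⊥ : Subfield K) (Sum.elim a b)) :
    IsGreatest {t : ℝ | DegBound a b δ (Sum.elim (fun i => c i.1) fun _ => t)}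
      (Real.sqrt ((δ ^ 2 - ∑ j, (n j * c j) ^ 2) / r)) :=
  NB.nagata_biran h2 n c δ hc s1 s2 p1 p2 p3 p4 hL r hr a b hab

end Pool.Agent.Results.MP_d0dfcd_ag.NagataBiran
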